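import Pool.Agent.Helper185.DelUltra

/-!
# Sequences of selective ultrafilters whose Fubini limits are q-points, under CH
-/

set_option autoImplicit false

open Set Filter

namespace Pool.Agent.H60QP

open Pool.Agent.Helper185.Del

/-- greedy choice: thinning columns so that a finite-to-one function becomes injective -/
theorem thin_inj {S : ℕ → Set ℕ} (hS : ∀ n, (S n).Infinite) {F : ℕ × ℕ → ℕ}
    (hF : ∀ m, {p | F p = m}.Finite) :
    ∃ T : ℕ → Set ℕ, (∀ n, (T n).Infinite) ∧ (∀ n, T n ⊆ S n) ∧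
      InjOn F {p : ℕ × ℕ | p.2 ∈ T p.1} := by
  obtain ⟨x, hx⟩ := exists_rec (I := ℕ) (Y := ℕ)
    (fun k g y => y ∈ S (Nat.unpair k).1 ∧
      ∀ j (hj : j < k), F ((Nat.unpair k).1, y) ≠ F ((Nat.unpair j).1, g j hj)) (by
      intro k g _
      have hfin : (⋃ j : Fin k, {y | F ((Nat.unpair k).1, y) =
          F ((Nat.unpair j).1, g j j.2)}).Finite := by
        refine Set.finite_iUnion fun j => ?_
        refine ((hF (F ((Nat.unpair j).1, g j j.2))).image Prod.snd).subset ?_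
        intro y hy
        exact ⟨((Nat.unpair k).1, y), hy, rfl⟩
      obtain ⟨y, hy1, hy2⟩ := (hS (Nat.unpair k).1).exists_notMem_finite hfin
      refine ⟨y, hy1, fun j hj h => hy2 ?_⟩
      exact mem_iUnion.2 ⟨⟨j, hj⟩, h⟩)
  have hne : ∀ j k, j < k → F ((Nat.unpair k).1, x k) ≠ F ((Nat.unpair j).1, x j) :=
    fun j k h => (hx k).2 j h
  refine ⟨fun n => {y | ∃ k, (Nat.unpair k).1 = n ∧ x k = y}, ?_, ?_, ?_⟩
  · intro n
    have hinj : Function.Injective fun a : ℕ => x (Nat.pair n a) := by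
      intro a b hab
      by_contra hne'
      have hab : x (Nat.pair n a) = x (Nat.pair n b) := hab
      have h1 : Nat.pair n a ≠ Nat.pair n b := by
        intro h
        apply hne'
        have := congrArg Nat.unpair h
        simp only [Nat.unpair_pair, Prod.mk.injEq] at this
        exact this.2
      rcases lt_or_gt_of_ne h1 with h | h
      · apply hne _ _ h
        simp [hab]
      · apply hne _ _ h
        simp [hab]
    refine (infinite_range_of_injective hinj).mono ?_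
    rintro _ ⟨a, rfl⟩
    exact ⟨Nat.pair n a, by simp, rfl⟩
  · rintro n _ ⟨k, rfl, rfl⟩
    exact (hx k).1
  · rintro ⟨n, y⟩ ⟨k, hk, hky⟩ ⟨m, z⟩ ⟨l, hl, hlz⟩ h
    simp only at hk hky hl hlz h
    subst hk hky hl hlz
    rcases lt_trichotomy k l with hkl | rfl | hkl
    · exact absurd h.symm (hne _ _ hkl)
    · rfl
    · exact absurd h (hne _ _ hkl)

/-- one step of the construction -/
theorem step {S : ℕ → Set ℕ} (hS : ∀ n, (S n).Infinite) (F : ℕ × ℕ → ℕ) :
    ∃ T : ℕ → Set ℕ, (∀ n, (T n).Infinite) ∧ (∀ n, T n ⊆ S n) ∧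
      (∀ n, (∀ x ∈ T n, F (n, x) = 0) ∨ (∀ x ∈ T n, F (n, x) ≠ 0)) ∧
      ((∀ m, {p | F p = m}.Finite) → InjOn F {p : ℕ × ℕ | p.2 ∈ T p.1}) := by
  classical
  obtain ⟨S', hS'1, hS'2, hS'3⟩ : ∃ T : ℕ → Set ℕ, (∀ n, (T n).Infinite) ∧ (∀ n, T n ⊆ S n) ∧
      (∀ n, (∀ x ∈ T n, F (n, x) = 0) ∨ (∀ x ∈ T n, F (n, x) ≠ 0)) := by
    have : ∀ n, ∃ T : Set ℕ, T.Infinite ∧ T ⊆ S n ∧
        ((∀ x ∈ T, F (n, x) = 0) ∨ (∀ x ∈ T, F (n, x) ≠ 0)) := by
      intro n
      by_cases hinf : (S n ∩ {x | F (n, x) = 0}).Infinite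
      · exact ⟨_, hinf, inter_subset_left, Or.inl fun x hx => hx.2⟩
      · refine ⟨S n \ {x | F (n, x) = 0}, ?_, diff_subset, Or.inr fun x hx => hx.2⟩
        intro hfin
        apply hS n
        refine ((not_infinite.1 hinf).union hfin).subset ?_
        intro a ha
        by_cases h : F (n, a) = 0
        · exact Or.inl ⟨ha, h⟩
        · exact Or.inr ⟨ha, h⟩
    choose T h1 h2 h3 using this
    exact ⟨T, h1, h2, h3⟩
  by_cases hF : ∀ m, {p | F p = m}.Finite
  · obtain ⟨T, h1, h2, h3⟩ := thin_inj hS'1 hF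
    refine ⟨T, h1, fun n => (h2 n).trans (hS'2 n), fun n => ?_, fun _ => h3⟩
    rcases hS'3 n with h | h
    · exact Or.inl fun x hx => h x (h2 n hx)
    · exact Or.inr fun x hx => h x (h2 n hx)
  · exact ⟨S', hS'1, hS'2, hS'3, fun h => absurd h hF⟩

/-- the tower -/
theorem exists_tower (hCH : Cardinal.aleph 1 = Cardinal.continuum.{0}) :
    ∃ (I : Type) (_ : LinearOrder I) (T : I → ℕ → Set ℕ),
      (∀ j : ℕ → I, ∃ k, ∀ n, j n < k) ∧
      (∀ i n, (T i n).Infinite) ∧ (∀ i j, i ≤ j → ∀ n, (T j n \ T i n).Finite) ∧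
      ∀ F : ℕ × ℕ → ℕ, ∃ i, (∀ n, (∀ x ∈ T i n, F (n, x) = 0) ∨ (∀ x ∈ T i n, F (n, x) ≠ 0)) ∧
        ((∀ m, {p | F p = m}.Finite) → InjOn F {p : ℕ × ℕ | p.2 ∈ T i p.1}) := by
  classical
  obtain ⟨I, _, _, hI, hunc, e, he⟩ := exists_enum (T := ℕ × ℕ → ℕ) (by simp) hCH
  obtain ⟨T, hT⟩ := exists_rec (I := I) (Y := ℕ → Set ℕ)
    (fun i g y => (∀ n, (y n).Infinite) ∧ (∀ j hj n, (y n \ g j hj n).Finite) ∧
      (∀ n, (∀ x ∈ y n, e i (n, x) = 0) ∨ (∀ x ∈ y n, e i (n, x) ≠ 0)) ∧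
        ((∀ m, {p | e i p = m}.Finite) → InjOn (e i) {p : ℕ × ℕ | p.2 ∈ y p.1})) (by
      intro i g hg
      have hy : ∀ n, ∃ y : Set ℕ, y.Infinite ∧ ∀ j hj, (y \ g j hj n).Finite := fun n =>
        exists_pseudo_tower (hI i) (g := fun j hj => g j hj n) (fun j hj => (hg j hj).1 n)
          (fun j hj k hk hjk => (hg k hk).2.1 j hjk n)
      choose y hy1 hy2 using hy
      obtain ⟨T, h1, h2, h3, h4⟩ := step hy1 (e i)
      exact ⟨T, h1, fun j hj n => (hy2 n j hj).subset (diff_subset_diff_left (h2 n)), h3, h4⟩)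
  refine ⟨I, inferInstance, T, ?_, fun i => (hT i).1, ?_, ?_⟩
  · intro j
    have hcount : (⋃ n, Iic (j n)).Countable := by
      refine countable_iUnion (fun n => ?_)
      have : Iic (j n) = insert (j n) (Iio (j n)) := by
        ext a
        simp only [mem_Iic, mem_insert_iff, mem_Iio]
        exact le_iff_eq_or_lt
      rw [this]
      exact (hI _).insert _
    have hex : ∃ k, k ∉ ⋃ n, Iic (j n) := by
      by_contra hcon
      push Not at hcon
      exact hunc (hcount.mono (fun a _ => hcon a))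
    obtain ⟨k, hk⟩ := hex
    simp only [mem_iUnion, mem_Iic, not_exists, not_le] at hk
    exact ⟨k, hk⟩
  · intro i j hij n
    rcases hij.lt_or_eq with h | rfl
    · exact (hT j).2.1 i h n
    · simp
  · intro F
    obtain ⟨i, rfl⟩ := he F
    exact ⟨i, (hT i).2.2⟩

/-- Under the continuum hypothesis there are ultrafilters `V n`, each generated by sets with good
properties: the main construction. -/
theorem exists_ultrafilters (hCH : Cardinal.aleph 1 = Cardinal.continuum.{0}) :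
    ∃ V : ℕ → Ultrafilter ℕ, (∀ n m, ({m} : Set ℕ) ∉ V n) ∧
      (∀ n, ∀ A : ℕ → Set ℕ, (∀ i, A i ∈ V n) → ∃ B ∈ V n, ∀ i, (B \ A i).Finite) ∧
      (∀ F : ℕ × ℕ → ℕ, (∀ m, {p | F p = m}.Finite) →
        ∃ T : ℕ → Set ℕ, (∀ n, T n ∈ V n) ∧ InjOn F {p : ℕ × ℕ | p.2 ∈ T p.1}) := by
  classical
  obtain ⟨I, _, T, hI, hinf, hmono, hF⟩ := exists_tower hCH
  obtain ⟨i0, -⟩ := hF (fun _ => 0)
  let 𝓕 : ℕ → Filter ℕ := fun n =>
    { sets := {B | ∃ i, (T i n \ B).Finite}
      univ_sets := ⟨i0, by simp⟩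
      sets_of_superset := by
        rintro A B ⟨i, hi⟩ hAB
        exact ⟨i, hi.subset (diff_subset_diff_right hAB)⟩
      inter_sets := by
        rintro A B ⟨i, hi⟩ ⟨j, hj⟩
        refine ⟨max i j, ?_⟩
        refine ((((hmono i (max i j) (le_max_left _ _) n).union hi).union
          ((hmono j (max i j) (le_max_right _ _) n).union hj))).subset ?_
        intro a ha
        by_cases hA : a ∈ A
        · right
          have hB : a ∉ B := fun hB => ha.2 ⟨hA, hB⟩
          by_cases haj : a ∈ T j n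
          · exact Or.inr ⟨haj, hB⟩
          · exact Or.inl ⟨ha.1, haj⟩
        · left
          by_cases hai : a ∈ T i n
          · exact Or.inr ⟨hai, hA⟩
          · exact Or.inl ⟨ha.1, hai⟩ }
  have h𝓕 : ∀ n B, B ∈ 𝓕 n ↔ ∃ i, (T i n \ B).Finite := fun n B => Iff.rfl
  have hmem : ∀ n i, T i n ∈ 𝓕 n := fun n i => ⟨i, by simp⟩
  have hcompl : ∀ n s, sᶜ ∉ 𝓕 n ↔ s ∈ 𝓕 n := by
    intro n s
    rw [h𝓕, h𝓕]
    constructor
    · intro h
      obtain ⟨i, hi, -⟩ := hF (fun p => if p.2 ∈ s then 0 else 1)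
      refine ⟨i, ?_⟩
      rcases hi n with h1 | h1
      · have : T i n ⊆ s := by
          intro x hx
          by_contra hxs
          have := h1 x hx
          simp [hxs] at this
        rw [diff_eq_empty.2 this]
        exact finite_empty
      · exfalso
        apply h
        refine ⟨i, ?_⟩
        have : T i n ⊆ sᶜ := by
          intro x hx hxs
          have := h1 x hx
          simp [hxs] at this
        rw [diff_eq_empty.2 this]
        exact finite_empty
    · rintro ⟨i, hi⟩ ⟨j, hj⟩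
      apply hinf (max i j) n
      refine (((hmono i (max i j) (le_max_left _ _) n).union hi).union
          ((hmono j (max i j) (le_max_right _ _) n).union hj)).subset ?_
      intro a ha
      by_cases hs : a ∈ s
      · right
        by_cases haj : a ∈ T j n
        · exact Or.inr ⟨haj, fun h => h hs⟩
        · exact Or.inl ⟨ha, haj⟩
      · left
        by_cases hai : a ∈ T i n
        · exact Or.inr ⟨hai, hs⟩
        · exact Or.inl ⟨ha, hai⟩
  refine ⟨fun n => Ultrafilter.ofComplNotMemIff (𝓕 n) (hcompl n), ?_, ?_, ?_⟩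
  · rintro n m ⟨i, hi⟩
    apply hinf i n
    refine (hi.union (finite_singleton m)).subset ?_
    intro a ha
    by_cases h : a = m
    · exact Or.inr h
    · exact Or.inl ⟨ha, h⟩
  · intro n A hA
    have hA' : ∀ i, ∃ j, (T j n \ A i).Finite := fun i => hA i
    choose j hj using hA'
    obtain ⟨k, hk⟩ := hI j
    refine ⟨T k n, hmem n k, fun i => ?_⟩
    refine ((hmono (j i) k (hk i).le n).union (hj i)).subset ?_
    intro a ha
    by_cases haj : a ∈ T (j i) n
    · exact Or.inr ⟨haj, ha.2⟩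
    · exact Or.inl ⟨ha.1, haj⟩
  · intro F hFf
    obtain ⟨i, -, hi⟩ := hF F
    exact ⟨T i, fun n => hmem n i, hi hFf⟩

end Pool.Agent.H60QP
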